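import Pool.Agent.H363Z.Derived

set_option autoImplicit false

open Pool.Agent.H363Z

universe u

/-- There is a finite semigroup presentation `P` and a base word `w` such that the derived
subgroup of the diagram group `D(P, w)` is not isomorphic to any diagram group. -/
theorem Pool.Agent.Results.MP_8a4945_al.ADerivedNotDiagram.result :
    ∃ (A : Type) (P : Pres A) (w : List A), Finite A ∧ P.rel.Finite ∧
      (∀ p ∈ P.rel, (p.2, p.1) ∉ P.rel) ∧ w ≠ [] ∧
      ∀ (B : Type u) (Q : Pres B) (v : List B), v ≠ [] →
        IsEmpty (commutator (DiagramGroup P w) ≃* DiagramGroup Q v) :=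
  Der.final
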